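import Pool.Agent.R609.QB.Fin

open MeasureTheory Set Filter Topology

namespace Pool.Agent.Results.MP_4978a0_pr.PrecedingClass

open Pool.Agent.R609.QB

/-- Q2: sharp bounds for `F⁻¹(p) / m_F` over the class `𝒞⁻_W`, without (`CMinus`) and with
(`CMinusLit`) atoms at the left end-point, where `W = df μ` is the base distribution with support
interval `[a, d)` and `x_p = qf μ p` is its `p`-quantile. -/
theorem result {μ : Measure ℝ} {a : ℝ} {d : EReal} (hB : Base μ a d) {p : ℝ} (hp : 0 < p)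
    (hp1 : p < 1) :
    IsGreatest (ratio p '' CMinus μ a)
      (1 / √(∫ v, (min ((v - a) / (qf μ p - a)) 1) ^ 2 ∂μ)) ∧
    (Integrable (fun v : ℝ => v ^ 2) μ →
      IsGLB (ratio p '' CMinus μ a)
        (min 1 ((qf μ p - a) / √(∫ v, (v - a) ^ 2 ∂μ)))) ∧
    (¬ Integrable (fun v : ℝ => v ^ 2) μ → IsGLB (ratio p '' CMinus μ a) 0) ∧
    IsLUB (ratio p '' CMinusLit μ a) (1 / √(1 - p)) ∧
    IsLeast (ratio p '' CMinusLit μ a) 0 :=
  ⟨cminus_sup hB hp hp1, cminus_inf hB hp hp1, cminus_inf' hB hp hp1, cminusLit_sup hB hp hp1,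
    cminusLit_inf hB hp hp1⟩

end Pool.Agent.Results.MP_4978a0_pr.PrecedingClass
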