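import Pool.Agent.R609.QB.Fin

open MeasureTheory Set Filter Topology

namespace Pool.Agent.Results.MP_4978a0_pr.SucceedingClass

open Pool.Agent.R609.QB

/-- Q1: sharp bounds for `F⁻¹(p) / m_F` over the class `𝒞⁺_W` (`CPlus`), where `W = df μ` is the
base distribution with support interval `[a, d)` and `x_p = qf μ p` is its `p`-quantile. -/
theorem result {μ : Measure ℝ} {a : ℝ} {d : EReal} (hB : Base μ a d) {p : ℝ} (hp : 0 < p)
    (hp1 : p < 1) :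
    (Integrable (fun v : ℝ => v ^ 2) μ →
      (∃! t : ℝ, t ∈ Ico a (qf μ p) ∧
        ((∫ v, max (v - t) 0 * (v - qf μ p) ∂μ) = 0 ∨
          (t = a ∧ 0 ≤ ∫ v, max (v - a) 0 * (v - qf μ p) ∂μ))) ∧
      (∀ t : ℝ, t ∈ Ico a (qf μ p) →
        ((∫ v, max (v - t) 0 * (v - qf μ p) ∂μ) = 0 ∨
          (t = a ∧ 0 ≤ ∫ v, max (v - a) 0 * (v - qf μ p) ∂μ)) →
        IsGreatest (ratio p '' CPlus μ a)
          ((qf μ p - t) / √(∫ v, (max (v - t) 0) ^ 2 ∂μ)) ∧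
        IsLUB (ratio p '' {ν | ν ∈ CPlus μ a ∧ df ν 0 = 0})
          ((qf μ p - t) / √(∫ v, (max (v - t) 0) ^ 2 ∂μ))) ∧
      IsLeast (ratio p '' CPlus μ a) 0 ∧
      IsGLB (ratio p '' {ν | ν ∈ CPlus μ a ∧ df ν 0 = 0}) 0) ∧
    (¬ Integrable (fun v : ℝ => v ^ 2) μ → CPlus μ a = ∅) := by
  haveI := hB.prob
  obtain ⟨hxa, hxd, hxp⟩ := hB.qf_spec hp hp1
  refine ⟨fun hI => ⟨?_, ?_, ?_, cplus_noatom_glb hB hp hp1 hI⟩, cplus_empty hB⟩
  · obtain ⟨t, ht, hO⟩ := opt_exists hB hp hp1 hI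
    exact ⟨t, ⟨ht, hO⟩, fun u hu => opt_unique hB hp hp1 hI hu.1 ht hu.2 hO⟩
  · intro t ht hO
    have htd : (t : EReal) < d := (EReal.coe_lt_coe_iff.mpr ht.2).trans hxd
    refine ⟨⟨⟨_, hinge_mem hB hI ht.1 htd, ?_⟩, ?_⟩, cplus_noatom_lub hB hp hp1 hI ht hO⟩
    · rw [ratio_map hB hp hp1 (by fun_prop) (hinge_mono t),
        max_eq_left (by linarith [ht.2] : 0 ≤ qf μ p - t)]
    · rintro _ ⟨ν, hν, rfl⟩
      exact cplus_upper hB hp hp1 hI ht hO hν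
  · constructor
    · refine ⟨_, hinge_mem hB hI hxa.le hxd, ?_⟩
      rw [ratio_map hB hp hp1 (by fun_prop) (hinge_mono _)]
      simp
    · rintro _ ⟨ν, hν, rfl⟩
      exact ratio_nonneg hν.1 hp hp1

end Pool.Agent.Results.MP_4978a0_pr.SucceedingClass
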